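import Pool.Agent.U280.OL.Stm
import Pool.Agent.U643.OD.B

/-! Project OL (helper280), package Q9 (helper884): perturbation of the Bessel inequality. -/

set_option autoImplicit false

open MeasureTheory FourierTransform Set Filter Topology
open scoped ENNReal

namespace Pool.Agent.U884.OL.Q9

open Pool.Agent.U280.OD Pool.Agent.U280.OE Pool.Agent.U280.OL Pool.Agent.U643.OD

/-- Cauchy-Schwarz -/
lemma cs {α : Type} [MeasurableSpace α] {μ : Measure α} {f g : α → ℝ} (hf0 : ∀ x, 0 ≤ f x)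
    (hg0 : ∀ x, 0 ≤ g x) (hf : MemLp f 2 μ) (hg : MemLp g 2 μ) :
    ∫ x, f x * g x ∂μ ≤ Real.sqrt (∫ x, f x ^ 2 ∂μ) * Real.sqrt (∫ x, g x ^ 2 ∂μ) := by
  have hpq : (2 : ℝ).HolderConjugate 2 := Real.HolderConjugate.two_two
  have h := integral_mul_le_Lp_mul_Lq_of_nonneg (μ := μ) hpq (Eventually.of_forall hf0)
    (Eventually.of_forall hg0) (by simpa using hf) (by simpa using hg)
  simpa [Real.sqrt_eq_rpow] using h

/-- the triangle inequality -/
lemma tri {N : ℕ} (a b : Fin N → ℂ) (Z δ : ℝ) (hZ : 0 ≤ Z) (hδ : 0 ≤ δ)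
    (hb : ∑ n, ‖b n‖ ^ 2 ≤ 1 / 2 * Z) (hab : ∑ n, ‖a n - b n‖ ^ 2 ≤ Z * δ ^ 2) :
    ∑ n, ‖a n‖ ^ 2 ≤ (1 / 2 * (1 + Real.sqrt 2 * δ) ^ 2) * Z := by
  set A : EuclideanSpace ℂ (Fin N) := WithLp.toLp 2 a with hA
  set B : EuclideanSpace ℂ (Fin N) := WithLp.toLp 2 b with hB
  have e1 : ‖A‖ ^ 2 = ∑ n, ‖a n‖ ^ 2 := EuclideanSpace.norm_sq_eq A
  have e2 : ‖B‖ ^ 2 = ∑ n, ‖b n‖ ^ 2 := EuclideanSpace.norm_sq_eq B
  have e3 : ‖A - B‖ ^ 2 = ∑ n, ‖a n - b n‖ ^ 2 := EuclideanSpace.norm_sq_eq (A - B)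
  rw [← e1]
  rw [← e2] at hb
  rw [← e3] at hab
  have h1 : ‖A‖ ≤ ‖B‖ + ‖A - B‖ := by
    calc ‖A‖ = ‖B + (A - B)‖ := by congr 1; abel
      _ ≤ _ := norm_add_le _ _
  have h2 : ‖B‖ ≤ Real.sqrt (1 / 2) * Real.sqrt Z := by
    rw [← Real.sqrt_mul (by norm_num)]
    exact Real.le_sqrt_of_sq_le hb
  have h3 : ‖A - B‖ ≤ Real.sqrt Z * δ := by
    have : ‖A - B‖ ≤ Real.sqrt (Z * δ ^ 2) := Real.le_sqrt_of_sq_le hab
    rwa [Real.sqrt_mul hZ, Real.sqrt_sq hδ] at this
  have h4 : ‖A‖ ≤ Real.sqrt (1 / 2) * Real.sqrt Z * (1 + Real.sqrt 2 * δ) := by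
    have h5 : Real.sqrt (1 / 2) * Real.sqrt 2 = 1 := by
      rw [← Real.sqrt_mul (by norm_num)]; norm_num
    calc ‖A‖ ≤ Real.sqrt (1 / 2) * Real.sqrt Z + Real.sqrt Z * δ := by linarith
      _ = Real.sqrt (1 / 2) * Real.sqrt Z + (Real.sqrt (1 / 2) * Real.sqrt 2) *
          (Real.sqrt Z * δ) := by rw [h5]; ring
      _ = _ := by ring
  calc ‖A‖ ^ 2 ≤ (Real.sqrt (1 / 2) * Real.sqrt Z * (1 + Real.sqrt 2 * δ)) ^ 2 :=
        pow_le_pow_left₀ (norm_nonneg _) h4 2
    _ = (Real.sqrt (1 / 2)) ^ 2 * (Real.sqrt Z) ^ 2 * (1 + Real.sqrt 2 * δ) ^ 2 := by ring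
    _ = _ := by rw [Real.sq_sqrt (by norm_num), Real.sq_sqrt hZ]; ring

/-- Package Q9. -/
theorem t_Q9 : Q9 := by
  intro k m N u hu v hv hvs hv2 s hs x hS F hF hFs δ hδ hsum
  set Z : ℝ := (8 * Real.pi * s) ^ (-(k : ℝ) / 2) with hZ
  have hZ0 : 0 ≤ Z := by positivity
  set K : P k m → ℝ := fun z => G s (x - z.1) * v z.2 with hK
  have hKc : Continuous K :=
    ((G_cont s x).comp continuous_fst).mul (hv.comp continuous_snd)
  have hK2 : Integrable (fun z : P k m => K z ^ 2) := by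
    have h1 : Integrable fun y : E k => G s (x - y) ^ 2 := (G_sq_int hs).comp_sub_left x
    have h2 : Integrable fun y : Fin m → ℝ => v y ^ 2 :=
      (hv.pow 2).integrable_of_hasCompactSupport (by
        have : v ^ 2 = fun y => v y * v y := by funext y; simp [pow_two]
        rw [this]
        exact hvs.mul_left)
    have h3 := h1.mul_prod h2
    refine h3.congr (Eventually.of_forall fun z => ?_)
    simp only [hK]
    ring
  have hK2' : ∫ z : P k m, K z ^ 2 ≤ Z := by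
    have h1 : ∫ z : P k m, K z ^ 2 = (∫ y : E k, G s (x - y) ^ 2) * ∫ y, v y ^ 2 := by
      rw [← integral_prod_mul (L := ℝ) (fun y : E k => G s (x - y) ^ 2) (fun y => v y ^ 2)]
      refine integral_congr_ae (Eventually.of_forall fun z => ?_)
      simp only [hK]
      ring
    rw [h1, integral_sub_left_eq_self (fun y : E k => G s y ^ 2) volume x, G_sq_integral hs]
    exact mul_le_of_le_one_right hZ0 hv2
  have hKL : MemLp K 2 := by
    rw [memLp_two_iff_integrable_sq hKc.aestronglyMeasurable]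
    exact hK2
  have hFL : ∀ n, MemLp (F n) 2 := fun n => (hF n).memLp_of_hasCompactSupport (hFs n)
  -- Fubini
  have hfub : ∀ n, ∫ x' : E k, ((G s (x - x') : ℝ) : ℂ) * av v (F n) x' =
      ∫ z : P k m, ((K z : ℝ) : ℂ) * F n z := by
    intro n
    have hint : Integrable (fun z : P k m => ((K z : ℝ) : ℂ) * F n z) := by
      refine ((Complex.continuous_ofReal.comp hKc).mul (hF n)).integrable_of_hasCompactSupport ?_
      exact (hFs n).mul_left
    have h1 := integral_prod _ hint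
    refine Eq.trans ?_ h1.symm
    refine integral_congr_ae (Eventually.of_forall fun x' => ?_)
    simp only [av, hK]
    rw [← integral_const_mul]
    refine integral_congr_ae (Eventually.of_forall fun y => ?_)
    simp only
    push_cast
    ring
  have hdif : ∀ n, ‖(∫ z : P k m, ((K z : ℝ) : ℂ) * F n z) - ∫ z : P k m, ((K z : ℝ) : ℂ) * u n z‖
      ^ 2 ≤ Z * ∫ z, ‖F n z - u n z‖ ^ 2 := by
    intro n
    have hKC : MemLp (fun z : P k m => ((K z : ℝ) : ℂ)) 2 := hKL.ofReal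
    have i1 : Integrable (fun z : P k m => ((K z : ℝ) : ℂ) * F n z) := hKC.integrable_mul (hFL n)
    have i2 : Integrable (fun z : P k m => ((K z : ℝ) : ℂ) * u n z) := hKC.integrable_mul (hu n)
    rw [← integral_sub i1 i2]
    have h1 : ‖∫ z : P k m, (((K z : ℝ) : ℂ) * F n z - ((K z : ℝ) : ℂ) * u n z)‖ ≤
        ∫ z : P k m, |K z| * ‖F n z - u n z‖ := by
      refine (norm_integral_le_integral_norm _).trans (le_of_eq ?_)
      refine integral_congr_ae (Eventually.of_forall fun z => ?_)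
      simp only
      rw [← mul_sub, norm_mul, Complex.norm_real, Real.norm_eq_abs]
    have h2 : ∫ z : P k m, |K z| * ‖F n z - u n z‖ ≤
        Real.sqrt (∫ z : P k m, |K z| ^ 2) * Real.sqrt (∫ z, ‖F n z - u n z‖ ^ 2) :=
      cs (fun z => abs_nonneg _) (fun z => norm_nonneg _) hKL.norm ((hFL n).sub (hu n)).norm
    have h3 : Real.sqrt (∫ z : P k m, |K z| ^ 2) ≤ Real.sqrt Z := by
      apply Real.sqrt_le_sqrt
      simp only [sq_abs]
      exact hK2'
    have h4 := h1.trans (h2.trans (mul_le_mul_of_nonneg_right h3 (Real.sqrt_nonneg _)))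
    have h5 := pow_le_pow_left₀ (norm_nonneg _) h4 2
    rw [mul_pow, Real.sq_sqrt hZ0, Real.sq_sqrt (integral_nonneg fun z => by positivity)] at h5
    exact h5
  have key := tri (fun n => ∫ z : P k m, ((K z : ℝ) : ℂ) * F n z)
    (fun n => ∫ z : P k m, ((K z : ℝ) : ℂ) * u n z) Z δ hZ0 hδ hS
    ((Finset.sum_le_sum fun n _ => hdif n).trans (by
      rw [← Finset.mul_sum]
      exact mul_le_mul_of_nonneg_left hsum hZ0))
  simp only [hfub]
  exact key

end Pool.Agent.U884.OL.Q9
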